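import Pool.Agent.Helper99_CHN.Ind
import Pool.Agent.Helper93_CH6.Pos6

/-!
Nested rows: lower bounds for the number of nonadjacent pairs in a common outneighbourhood.
-/

set_option autoImplicit false

namespace Pool.Agent.CH6

open Pool.Agent.CH

/-- a linear lower bound for the number of nonadjacent pairs of a digraph without directed
triangles, in terms of a lower bound `δ` for `D` times the outdegrees -/
def Line (C D : ℕ) (A a' b' : ℤ) : Prop :=
  ∀ (V : Type) [Fintype V] [DecidableEq V] [Nonempty V] (E : V → V → Prop) [DecidableRel E],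
    (∀ u v, E u v → ¬ E v u) → (∀ u v w, E u v → E v w → ¬ E w u) →
    (∀ T : Finset V, T.Nonempty → ∃ w ∈ T, D * (T.filter (fun v => E w v)).card ≤ C * T.card) →
    ∀ δ : ℤ, (∀ u : V, δ ≤ (D : ℤ) * ((Finset.univ.filter (fun v => E u v)).card : ℤ)) →
    a' * (Fintype.card V : ℤ) ^ 2 + b' * δ * (Fintype.card V : ℤ) ≤
      A * ∑ a : V, ∑ b : V, (if rel E a b = 0 then (1 : ℤ) else 0)

/-- the vertex with profile `g` is a common outneighbour of the roots of the mask -/
def inS4 (mask g : ℕ) : Prop := ∀ i : Fin 4, mask / 2 ^ (i : ℕ) % 2 = 1 → dg g i = 1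

instance (mask g : ℕ) : Decidable (inS4 mask g) := by unfold inS4; infer_instance

/-- the vertex with profile `g` is an inneighbour of a root of the mask -/
def inN4 (mask g : ℕ) : Prop := ∃ i : Fin 4, mask / 2 ^ (i : ℕ) % 2 = 1 ∧ dg g i = 2

instance (mask g : ℕ) : Decidable (inN4 mask g) := by unfold inN4; infer_instance

/-- pattern of a nested row -/
def nsV (C D A a' b' : ℤ) (mask g r : ℕ) : ℤ :=
  (if inS4 mask g then A * (if r = 0 then 1 else 0) - a' else 0) -
    b' * (C - D + (if inS4 mask g then D else 0) + (if inN4 mask g then D else 0))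

section

variable {V : Type} [Fintype V] [DecidableEq V] (E : V → V → Prop) [DecidableRel E]

theorem nest_nonneg (hE : ∀ u v, E u v → ¬ E v u) (h3 : ∀ u v w, E u v → E v w → ¬ E w u)
    (C D : ℕ)
    (hdeg : ∀ u : V, C * Fintype.card V ≤ D * (Finset.univ.filter (fun v => E u v)).card)
    (hmin : MinS E C D) (A a' b' : ℤ) (hL : Line C D A a' b') (x : Fin 4 → V) (mask : ℕ)
    (i0 : Fin 4) (hi0 : mask / 2 ^ (i0 : ℕ) % 2 = 1) :
    0 ≤ ∑ a : V, ∑ b : V, (if inS4 mask (prof4 (fun i => rel E (x i) a)) then (1 : ℤ) else 0) *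
      nsV C D A a' b' mask (prof4 (fun i => rel E (x i) b)) (rel E a b) := by
  classical
  let S : Finset V := Finset.univ.filter (fun b => ∀ i : Fin 4, mask / 2 ^ (i : ℕ) % 2 = 1 →
    E (x i) b)
  let N : Finset V := Finset.univ.filter (fun b => ∃ i : Fin 4, mask / 2 ^ (i : ℕ) % 2 = 1 ∧
    E b (x i))
  have hS : ∀ b, inS4 mask (prof4 (fun i => rel E (x i) b)) ↔ b ∈ S := by
    intro b
    simp only [S, Finset.mem_filter, Finset.mem_univ, true_and]
    unfold inS4
    refine forall_congr' (fun i => ?_)
    rw [dg_prof (fun i => rel E (x i) b) (fun i => rel_lt E (x i) b) i, rel_eq_one]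
  have hN : ∀ b, inN4 mask (prof4 (fun i => rel E (x i) b)) ↔ b ∈ N := by
    intro b
    simp only [N, Finset.mem_filter, Finset.mem_univ, true_and]
    unfold inN4
    refine exists_congr (fun i => ?_)
    rw [dg_prof (fun i => rel E (x i) b) (fun i => rel_lt E (x i) b) i, rel_eq_two E hE]
  have hNS : Disjoint N S := by
    rw [Finset.disjoint_left]
    intro b hb hb'
    simp only [N, S, Finset.mem_filter, Finset.mem_univ, true_and] at hb hb'
    obtain ⟨i, hi, hbr⟩ := hb
    exact hE _ _ hbr (hb' i hi)
  have hx0 : x i0 ∉ S := by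
    intro h
    simp only [S, Finset.mem_filter, Finset.mem_univ, true_and] at h
    have := h i0 hi0
    exact hE _ _ this this
  let δ : ℤ := (D : ℤ) * S.card + (D : ℤ) * N.card - ((D : ℤ) - C) * (Fintype.card V : ℤ)
  -- the inner outdegrees
  have hin : ∀ u ∈ S, δ ≤ (D : ℤ) * ((S.filter (fun v => E u v)).card : ℤ) := by
    intro u hu
    have hu' : ∀ i : Fin 4, mask / 2 ^ (i : ℕ) % 2 = 1 → E (x i) u := by
      simpa [S] using hu
    have hsub : Finset.univ.filter (fun v => E u v) ⊆
        (S.filter (fun v => E u v)) ∪ (Finset.univ \ (N ∪ S)) := by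
      intro b hb
      simp only [Finset.mem_filter, Finset.mem_univ, true_and] at hb
      have hbN : b ∉ N := by
        intro hbN
        simp only [N, Finset.mem_filter, Finset.mem_univ, true_and] at hbN
        obtain ⟨i, hi, hbi⟩ := hbN
        exact h3 _ _ _ (hu' i hi) hb hbi
      simp only [Finset.mem_union, Finset.mem_filter, Finset.mem_sdiff, Finset.mem_univ,
        true_and, not_or]
      by_cases hbS : b ∈ S
      · exact Or.inl ⟨hbS, hb⟩
      · exact Or.inr ⟨hbN, hbS⟩
    have hNSc : N.card + S.card ≤ Fintype.card V := by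
      rw [← Finset.card_union_of_disjoint hNS]
      exact Finset.card_le_univ _
    have h1 := Finset.card_le_card hsub
    have h2 := Finset.card_union_le (S.filter (fun v => E u v)) (Finset.univ \ (N ∪ S))
    have h4 : (Finset.univ \ (N ∪ S)).card = Fintype.card V - (N.card + S.card) := by
      rw [Finset.card_sdiff_of_subset (Finset.subset_univ _),
        Finset.card_union_of_disjoint hNS, Finset.card_univ]
    have h5 : ((Finset.univ.filter (fun v => E u v)).card : ℤ) + (N.card : ℤ) + (S.card : ℤ) ≤
        ((S.filter (fun v => E u v)).card : ℤ) + (Fintype.card V : ℤ) := by omega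
    have hd : (C : ℤ) * (Fintype.card V : ℤ) ≤
        (D : ℤ) * ((Finset.univ.filter (fun v => E u v)).card : ℤ) := by
      exact_mod_cast hdeg u
    have hD : (0 : ℤ) ≤ D := by positivity
    have h6 := mul_le_mul_of_nonneg_left h5 hD
    show (D : ℤ) * S.card + (D : ℤ) * N.card - ((D : ℤ) - C) * (Fintype.card V : ℤ) ≤ _
    linarith
  -- the value of the sum
  have key : a' * (S.card : ℤ) ^ 2 + b' * δ * (S.card : ℤ) ≤
      A * ∑ a ∈ S, ∑ b ∈ S, (if rel E a b = 0 then (1 : ℤ) else 0) := by
    rcases S.eq_empty_or_nonempty with he | hne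
    · rw [he]; simp
    have : Nonempty {v // v ∈ S} := ⟨⟨hne.choose, hne.choose_spec⟩⟩
    have hcard : Fintype.card {v // v ∈ S} = S.card := by simp
    have hcf : ∀ (T : Finset {v // v ∈ S}) (u : {v // v ∈ S}),
        ((T.map (Function.Embedding.subtype (fun x => x ∈ S))).filter
          (fun v => E u.1 v)).card = (T.filter (fun v => E u.1 v.1)).card := by
      intro T u
      rw [Finset.filter_map, Finset.card_map]
      rfl
    have h := hL {v // v ∈ S} (fun a b => E a.1 b.1) (fun _ _ h => hE _ _ h)
      (fun _ _ _ h1 h2 => h3 _ _ _ h1 h2) (by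
        intro T hT
        have hT' : (T.map (Function.Embedding.subtype (fun x => x ∈ S))).Nonempty := by
          simpa using hT
        obtain ⟨w, hw, hw2⟩ := hmin (T.map (Function.Embedding.subtype (fun x => x ∈ S))) hT' (by
          intro h
          have h1 : x i0 ∈ T.map (Function.Embedding.subtype (fun x => x ∈ S)) := by
            rw [h]; exact Finset.mem_univ _
          rw [Finset.mem_map] at h1
          obtain ⟨v, _, hv⟩ := h1
          apply hx0
          rw [← hv]
          exact v.2)
        rw [Finset.mem_map] at hw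
        obtain ⟨v, hv, rfl⟩ := hw
        refine ⟨v, hv, ?_⟩
        have h1 := hcf T v
        rw [Finset.card_map] at hw2
        rw [← h1]
        exact hw2) δ (by
        intro u
        have h1 := hin u.1 u.2
        have h2 := hcf Finset.univ u
        have h4 : (Finset.univ : Finset {v // v ∈ S}).map
            (Function.Embedding.subtype (fun x => x ∈ S)) = S := by
          ext v; simp
        rw [h4] at h2
        rw [← h2]
        exact h1)
    rw [hcard] at h
    have hsum : ∑ a : {v // v ∈ S}, ∑ b : {v // v ∈ S},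
        (if rel (fun a b : {v // v ∈ S} => E a.1 b.1) a b = 0 then (1 : ℤ) else 0) =
        ∑ a ∈ S, ∑ b ∈ S, (if rel E a b = 0 then (1 : ℤ) else 0) := by
      rw [← Finset.sum_coe_sort S (fun a => ∑ b ∈ S, (if rel E a b = 0 then (1 : ℤ) else 0))]
      refine Finset.sum_congr rfl (fun a _ => ?_)
      rw [← Finset.sum_coe_sort S (fun b => (if rel E a.1 b = 0 then (1 : ℤ) else 0))]
      rfl
    rw [hsum] at h
    exact h
  have hval : ∑ a : V, ∑ b : V, (if inS4 mask (prof4 (fun i => rel E (x i) a)) then (1 : ℤ)
      else 0) * nsV C D A a' b' mask (prof4 (fun i => rel E (x i) b)) (rel E a b) =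
      A * (∑ a ∈ S, ∑ b ∈ S, (if rel E a b = 0 then (1 : ℤ) else 0)) -
        a' * (S.card : ℤ) ^ 2 - b' * δ * (S.card : ℤ) := by
    simp only [hS]
    have h1 : ∀ a : V, ∑ b : V, (if a ∈ S then (1 : ℤ) else 0) *
        nsV C D A a' b' mask (prof4 (fun i => rel E (x i) b)) (rel E a b) =
        if a ∈ S then A * (∑ b ∈ S, (if rel E a b = 0 then (1 : ℤ) else 0)) -
          a' * (S.card : ℤ) - b' * δ else 0 := by
      intro a
      by_cases ha : a ∈ S
      · simp only [if_pos ha, one_mul]
        unfold nsV
        simp only [hS, hN]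
        rw [Finset.sum_sub_distrib, ← Finset.mul_sum, Finset.sum_add_distrib,
          Finset.sum_add_distrib]
        have e1 : ∑ b : V, (if b ∈ S then A * (if rel E a b = 0 then 1 else 0) - a' else 0) =
            A * (∑ b ∈ S, (if rel E a b = 0 then (1 : ℤ) else 0)) - a' * (S.card : ℤ) := by
          rw [← Finset.sum_filter, Finset.filter_mem_eq_inter, Finset.univ_inter,
            Finset.sum_sub_distrib, ← Finset.mul_sum]
          simp
          ring
        have e2 : ∑ b : V, (if b ∈ S then (D : ℤ) else 0) = (D : ℤ) * S.card := by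
          rw [← Finset.sum_filter, Finset.filter_mem_eq_inter, Finset.univ_inter]
          simp
          ring
        have e3 : ∑ b : V, (if b ∈ N then (D : ℤ) else 0) = (D : ℤ) * N.card := by
          rw [← Finset.sum_filter, Finset.filter_mem_eq_inter, Finset.univ_inter]
          simp
          ring
        rw [e1, e2, e3]
        simp only [Finset.sum_const, Finset.card_univ, nsmul_eq_mul]
        show _ = _ - b' * ((D : ℤ) * S.card + (D : ℤ) * N.card -
          ((D : ℤ) - C) * (Fintype.card V : ℤ))
        ring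
      · simp only [if_neg ha, zero_mul, Finset.sum_const_zero]
    simp only [h1]
    rw [← Finset.sum_filter, Finset.filter_mem_eq_inter, Finset.univ_inter,
      Finset.sum_sub_distrib, Finset.sum_sub_distrib, ← Finset.mul_sum]
    simp only [Finset.sum_const, nsmul_eq_mul]
    ring
  rw [hval]
  linarith

end

end Pool.Agent.CH6
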