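import Pool.Agent.Helper93_CH6.Comp
import Pool.Agent.Helper93_CH6.Row6
import Pool.Agent.Helper99_CHN.Nest

/-!
Five-vertex symmetrisation: permutations, sums, reduction to representatives.
-/

set_option autoImplicit false

namespace Pool.Agent.CH5

open Pool.Agent.CH Pool.Agent.CH6

/-- the 120 permutations of five points -/
def PF5 : ℕ := 0x102030401000203040002010304020001030401020003040201000304000103020401000302040003010204030001020401030002040301000204000203010402000301040003020104030002010402030001040302000104010203000402010300040103020004030102000402030100040302010004000102040301000204030002010403020001040301020004030201000403000104020301000402030004010203040001020301040002030401000203000204010302000401030004020103040002010302040001030402000103010204000302010400030104020003040102000302040100030402010003000103040201000304020003010402030001040201030004020301000402000104030201000403020004010302040001030201040003020401000302000304010203000401020004030102040003010203040001020403000102010304000203010400020104030002040103000203040100020403010002000203040102000304010003020401030002040102030004010302000401000204030102000403010004020301040002030102040003010402000301000304020103000402010004030201040003020103040002010403000201020304000103020400010204030001040203000103040200010403020001010203040002010304000103020400030102040002030104000302010400010204030002010403000104020300040102030002040103000402010300010304020003010402000104030200040103020003040102000403010200020304010003020401000204030100040203010003040201000403020100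

/-- indices of the inverses -/
def PI5 : ℕ := 0x775f71594741755d6f57453f6b5369513b392f292d272321765e70584640745c6e56443e6a5268503a382e282c262220735b6d55433d725a6c54423c674f664e37362b252a241f1e654d634b3533644c624a34326149604831301d1b1c1a19181711150f0b091610140e0a08130d120c0706050304020100

/-- positions in the packed matrix -/
def PT5 : ℕ := 0x1703080d04090e050a0b1708030d09040e010b0a17030d08040e090a0507170d03080e040902070517080d03090e040b0102170d08030e090407020116020711040913050f101607021109041301100f160211070413090f050816110207130409030805160711020913041001031611070213090408030115010b10040e130a0f11150b01100e041302110f1501100b04130e0f0a0d1510010b13040e030d0a150b10010e130411020315100b01130e040d030214050a0f090e130b1011140a050f0e091307111014050f0a09130e100b0d140f050a13090e080d0b140a0f050e1309110708140f0a05130e090d08071304090e03080d050a0b1309040e08030d010b0a13040e09030d080a0507130e04090d030802070513090e04080d030b0102130e09040d080307020111020716030817051415110702160803170115141102160703170814050911160207170308040905110716020817031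501041116070217080309040110010b15030d170a1416100b01150d03170216141001150b03170d140a0e1015010b17030d040e0a100b15010d170316020410150b01170d030e04020f050a14080d170b15160f0a05140d08170716150f05140a08170d150b0e0f14050a17080d090e0b0f0a14050d17081607090f140a05170d080e09070e040913020711050f100e09041307021101100f0e0413090211070f05080e1304091102070308050e0913040711021001030e1309041107020803010d0308170207160514150d0803170702160115140d0317080216071405090d1703081602070409050d0817030716021501040d1708031607020904010b0110150211160f14170b1001151102160317140b011510021611140f130b15011016021104130f0b1015011116021703040b1510011611021304030a050f140711161015170a0f05141107160817150a05140f0716111510130a14050f1607110913100a0f14051116071708090a140f0516110713090809040e13010b100a0f11090e04130b011002110f0904130e01100b0f0a0d0913040e10010b030d0a090e13040b100111020309130e04100b010d030208030d17010b150a1416080d03170b01150216140803170d01150b140a0e0817030d15010b040e0a080d17030b150116020408170d03150b010e0402070211160110150f14170711021610011503171407021611011510140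f130716021115011004130f0711160210150117030407161102151001130403050a0f140b1015111617050f0a14100b150d1716050a140f0b151016111305140a0f150b100e1311050f140a10150b170d0e05140f0a15100b130e0d04090e13050a0f0b1011040e09130a050f0711100409130e050f0a100b0d0413090e0f050a080d0b040e13090a0f0511070804130e090f0a050d080703080d17050a140b1516030d08170a05140716150308170d05140a150b0e0317080d14050a090e0b030d17080a140516070903170d08140a050e090702071116050f14101517021107160f05140817150207161105140f1510130216071114050f091310021116070f140517080902161107140f05130908010b10150a0f1411161701100b150f0a140d1716010b15100a140f16111301150b10140a0f0e13110110150b0f140a170d0e0115100b140f0a130e0d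

/-- positions in the packed matrix, four points -/
def PT4 : ℕ := 0x3070b04080907030b010908030b070804060b0307020604070b030901020b070306020102060e040c0d06020e010d0c020e060c04070e0206030704060e020d01030e060207030101090d080c0e09010d020e0c010d090c080b0d0109030b08090d010e02030d09010b030204080c090d0e08040c060e0d040c080d090b0c0408070b09080c040e06070c08040b0706

/-- byte of a table -/
def by8 (T k : ℕ) : ℕ := Nat.mod (Nat.shiftRight T (Nat.mul 8 k)) 256

/-- value of the `s`-th permutation of five points -/
def pf5 (s : ℕ) (x : Fin 5) : Fin 5 := ⟨by8 PF5 (5 * s + x) % 5, Nat.mod_lt _ (by norm_num)⟩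

theorem pf5_left : ∀ s : Fin 120, ∀ x : Fin 5, pf5 (by8 PI5 s) (pf5 s x) = x := by
  decide +kernel

theorem pf5_right : ∀ s : Fin 120, ∀ x : Fin 5, pf5 s (pf5 (by8 PI5 s) x) = x := by
  decide +kernel

/-- the `s`-th permutation of five points -/
def pm5 (s : Fin 120) : Equiv.Perm (Fin 5) :=
  ⟨pf5 s, pf5 (by8 PI5 s), pf5_left s, pf5_right s⟩

theorem pf5_inj : ∀ a b : Fin 120, (∀ x : Fin 5, pf5 a x = pf5 b x) → a = b := by
  decide +kernel

theorem pm5_bij : Function.Bijective pm5 := by
  rw [Fintype.bijective_iff_injective_and_card]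
  refine ⟨fun a b h => pf5_inj a b (fun x => ?_), ?_⟩
  · exact congrArg (fun σ : Equiv.Perm (Fin 5) => σ x) h
  · rw [Fintype.card_perm]
    rfl

lemma sum_perm5 (F : Equiv.Perm (Fin 5) → ℤ) : ∑ σ, F σ = ∑ s : Fin 120, F (pm5 s) :=
  (Fintype.sum_bijective pm5 pm5_bij _ _ (fun _ => rfl)).symm

/-- code of a relation matrix on three points -/
def code3 (d : Fin 3 → Fin 3 → ℕ) : ℕ := d 0 1 + 3 * d 0 2 + 9 * d 1 2

/-- code of a profile over three roots -/
def prof3 (f : Fin 3 → ℕ) : ℕ := f 0 + 3 * f 1 + 9 * f 2

/-- value of a matrix on five points: `0, 1` are the two extra vertices, `2, 3, 4` the roots -/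
def hval5 (W : ℕ → ℕ → ℕ → ℕ → ℤ) (d : Fin 5 → Fin 5 → ℕ) : ℤ :=
  W (code3 (fun i j => d i.succ.succ j.succ.succ)) (prof3 (fun i => d i.succ.succ 0))
    (prof3 (fun i => d i.succ.succ 1)) (d 0 1)

/-- the fully symmetrised value -/
def T5 (W : ℕ → ℕ → ℕ → ℕ → ℤ) (d : Fin 5 → Fin 5 → ℕ) : ℤ :=
  ∑ π : Equiv.Perm (Fin 5), hval5 W (fun i j => d (π i) (π j))

/-- value of a matrix on four points: `0` is the extra vertex -/
def hval4 (M : ℕ → ℕ → ℤ) (d : Fin 4 → Fin 4 → ℕ) : ℤ :=
  M (code3 (fun i j => d i.succ j.succ)) (prof3 (fun i => d i.succ 0))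

/-- the fully symmetrised value -/
def T4 (M : ℕ → ℕ → ℤ) (d : Fin 4 → Fin 4 → ℕ) : ℤ :=
  ∑ π : Equiv.Perm (Fin 4), hval4 M (fun i j => d (π i) (π j))

lemma T5_comp (W : ℕ → ℕ → ℕ → ℕ → ℤ) (d : Fin 5 → Fin 5 → ℕ) (ρ : Equiv.Perm (Fin 5)) :
    T5 W (fun i j => d (ρ i) (ρ j)) = T5 W d := by
  unfold T5
  rw [← Equiv.sum_comp (Equiv.mulLeft ρ) (fun π : Equiv.Perm (Fin 5) =>
    hval5 W (fun i j => d (π i) (π j)))]
  rfl

lemma T4_comp (M : ℕ → ℕ → ℤ) (d : Fin 4 → Fin 4 → ℕ) (ρ : Equiv.Perm (Fin 4)) :
    T4 M (fun i j => d (ρ i) (ρ j)) = T4 M d := by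
  unfold T4
  rw [← Equiv.sum_comp (Equiv.mulLeft ρ) (fun π : Equiv.Perm (Fin 4) =>
    hval4 M (fun i j => d (π i) (π j)))]
  rfl

section Sum

variable {V : Type*} [Fintype V]

lemma sumV5 (g : V → V → (Fin 3 → V) → ℤ) :
    ∑ x : Fin 5 → V, g (x 0) (x 1) (fun i => x i.succ.succ) =
      ∑ x : Fin 3 → V, ∑ a, ∑ b, g a b x := by
  rw [← Equiv.sum_comp (Fin.consEquiv (fun _ : Fin 5 => V))]
  rw [Fintype.sum_prod_type]
  have : ∀ a : V, ∑ y : Fin 4 → V, g ((Fin.consEquiv (fun _ : Fin 5 => V)) (a, y) 0)
      ((Fin.consEquiv (fun _ : Fin 5 => V)) (a, y) 1)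
      (fun i => (Fin.consEquiv (fun _ : Fin 5 => V)) (a, y) i.succ.succ) =
      ∑ b, ∑ x : Fin 3 → V, g a b x := by
    intro a
    rw [← Equiv.sum_comp (Fin.consEquiv (fun _ : Fin 4 => V))]
    rw [Fintype.sum_prod_type]
    rfl
  rw [Finset.sum_congr rfl (fun a _ => this a)]
  symm
  rw [Finset.sum_comm]
  exact Finset.sum_congr rfl (fun a _ => Finset.sum_comm)

lemma sumV4 (g : V → (Fin 3 → V) → ℤ) :
    ∑ x : Fin 4 → V, g (x 0) (fun i => x i.succ) = ∑ x : Fin 3 → V, ∑ a, g a x := by
  rw [← Equiv.sum_comp (Fin.consEquiv (fun _ : Fin 4 => V))]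
  rw [Fintype.sum_prod_type, Finset.sum_comm]
  rfl

variable (E : V → V → Prop) [DecidableRel E]

theorem sum_T5 (W : ℕ → ℕ → ℕ → ℕ → ℤ) :
    ∑ x : Fin 5 → V, T5 W (fun i j => rel E (x i) (x j)) = 120 * ∑ x : Fin 3 → V, ∑ a, ∑ b,
      W (code3 (fun i j => rel E (x i) (x j))) (prof3 (fun i => rel E (x i) a))
        (prof3 (fun i => rel E (x i) b)) (rel E a b) := by
  have h2 : ∑ x : Fin 5 → V, T5 W (fun i j => rel E (x i) (x j)) =
      ∑ _π : Equiv.Perm (Fin 5), ∑ x : Fin 5 → V, hval5 W (fun i j => rel E (x i) (x j)) := by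
    unfold T5
    rw [Finset.sum_comm]
    refine Finset.sum_congr rfl (fun π _ => ?_)
    let e : (Fin 5 → V) ≃ (Fin 5 → V) :=
      { toFun := fun x i => x (π i)
        invFun := fun x i => x (π.symm i)
        left_inv := by intro x; funext i; simp
        right_inv := by intro x; funext i; simp }
    exact Equiv.sum_comp e (fun x => hval5 W (fun i j => rel E (x i) (x j)))
  have h := sumV5 (fun a b (x : Fin 3 → V) =>
      W (code3 (fun i j => rel E (x i) (x j))) (prof3 (fun i => rel E (x i) a))
        (prof3 (fun i => rel E (x i) b)) (rel E a b))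
  rw [h2, Finset.sum_const, nsmul_eq_mul, Finset.card_univ, Fintype.card_perm]
  unfold hval5
  rw [h]
  rfl

theorem sum_T4 (M : ℕ → ℕ → ℤ) :
    ∑ x : Fin 4 → V, T4 M (fun i j => rel E (x i) (x j)) = 24 * ∑ x : Fin 3 → V, ∑ a,
      M (code3 (fun i j => rel E (x i) (x j))) (prof3 (fun i => rel E (x i) a)) := by
  have h2 : ∑ x : Fin 4 → V, T4 M (fun i j => rel E (x i) (x j)) =
      ∑ _π : Equiv.Perm (Fin 4), ∑ x : Fin 4 → V, hval4 M (fun i j => rel E (x i) (x j)) := by
    unfold T4
    rw [Finset.sum_comm]
    refine Finset.sum_congr rfl (fun π _ => ?_)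
    let e : (Fin 4 → V) ≃ (Fin 4 → V) :=
      { toFun := fun x i => x (π i)
        invFun := fun x i => x (π.symm i)
        left_inv := by intro x; funext i; simp
        right_inv := by intro x; funext i; simp }
    exact Equiv.sum_comp e (fun x => hval4 M (fun i j => rel E (x i) (x j)))
  have h := sumV4 (fun a (x : Fin 3 → V) =>
      M (code3 (fun i j => rel E (x i) (x j))) (prof3 (fun i => rel E (x i) a)))
  rw [h2, Finset.sum_const, nsmul_eq_mul, Finset.card_univ, Fintype.card_perm]
  unfold hval4
  rw [h]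
  rfl

end Sum

/-- code of a matrix on five points -/
def code5 (d : Fin 5 → Fin 5 → ℕ) : ℕ :=
  code4 (fun i j => d (c45 i) (c45 j)) + 729 * prof4 (fun i => d (c45 i) 4)

/-- the matrix of a code on five points -/
def mat5 (p : ℕ) (i j : Fin 5) : ℕ :=
  if i = j then 0 else if i < j then p / 3 ^ ((j : ℕ) * ((j : ℕ) - 1) / 2 + i) % 3
  else inv (p / 3 ^ ((i : ℕ) * ((i : ℕ) - 1) / 2 + j) % 3)

lemma code5_dg (d : Fin 5 → Fin 5 → ℕ) (hd : ∀ i j, d i j < 3) (i j : Fin 5) (hij : i < j) :
    code5 d / 3 ^ ((j : ℕ) * ((j : ℕ) - 1) / 2 + i) % 3 = d i j := by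
  have h01 := hd 0 1
  have h02 := hd 0 2
  have h12 := hd 1 2
  have h03 := hd 0 3
  have h13 := hd 1 3
  have h23 := hd 2 3
  have h04 := hd 0 4
  have h14 := hd 1 4
  have h24 := hd 2 4
  have h34 := hd 3 4
  have e : code5 d = d 0 1 + 3 * d 0 2 + 9 * d 1 2 + 27 * d 0 3 + 81 * d 1 3 + 243 * d 2 3 +
      729 * (d 0 4 + 3 * d 1 4 + 9 * d 2 4 + 27 * d 3 4) := rfl
  rw [e]
  fin_cases i <;> fin_cases j <;> simp at hij ⊢ <;> omega

lemma eq_mat5 {d : Fin 5 → Fin 5 → ℕ} (he : Cfg d) : d = mat5 (code5 d) := by
  funext i j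
  unfold mat5
  by_cases hij : i = j
  · rw [if_pos hij, hij]
    have h1 := he.anti j j
    have h2 := he.lt j j
    unfold inv at h1
    have : d j j = 0 ∨ d j j = 1 ∨ d j j = 2 := by omega
    rcases this with h | h | h
    · exact h
    · rw [h] at h1; simp at h1
    · rw [h] at h1; simp at h1
  · rw [if_neg hij]
    by_cases hlt : i < j
    · rw [if_pos hlt]
      exact (code5_dg d he.lt i j hlt).symm
    · rw [if_neg hlt]
      have hgt : j < i := lt_of_le_of_ne (not_lt.1 hlt) (Ne.symm hij)
      rw [code5_dg d he.lt j i hgt]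
      exact he.anti j i

/-- REDUCTION to representatives on five points. -/
theorem red5 (W : ℕ → ℕ → ℕ → ℕ → ℤ) (h : ∀ p ∈ R5L, T5 W (mat5 p) ≤ 0)
    (d : Fin 5 → Fin 5 → ℕ) (hd : Cfg d) : T5 W d ≤ 0 := by
  obtain ⟨σ, hσ⟩ := comp4 (fun i j => d (c45 i) (c45 j)) (hd.comp c45)
  have h1 : ∀ i : Fin 4, (ext σ : Equiv.Perm (Fin (4 + 1))) (c45 i) = c45 (σ i) :=
    fun i => ext_castAdd σ i
  rw [← T5_comp W d (ext σ : Equiv.Perm (Fin (4 + 1)))]
  have hc1 := hd.comp (ext σ : Equiv.Perm (Fin (4 + 1)))
  have hR1 : R4 (code4 (fun i j => d ((ext σ : Equiv.Perm (Fin (4 + 1))) (c45 i))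
      ((ext σ : Equiv.Perm (Fin (4 + 1))) (c45 j)))) := by
    simp only [h1]
    exact hσ
  generalize hd1 : (fun i j => d ((ext σ : Equiv.Perm (Fin (4 + 1))) i)
    ((ext σ : Equiv.Perm (Fin (4 + 1))) j)) = d1 at hc1
  have hR1' : R4 (code4 (fun i j => d1 (c45 i) (c45 j))) := by
    rw [← hd1]; exact hR1
  have hgoal : T5 W d1 ≤ 0 := by
    obtain ⟨π, hπ⟩ := comp5 d1 hc1 hR1'
    rw [← T5_comp W d1 π]
    have hc2 := hc1.comp π
    have hp : code5 (fun i j => d1 (π i) (π j)) ∈ R5L := hπ
    have := h _ hp
    rw [← eq_mat5 hc2] at this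
    exact this
  exact hgoal

/-- REDUCTION to representatives on four points. -/
theorem red4 (M : ℕ → ℕ → ℤ) (β : ℤ) (h : ∀ i : Fin 32, β ≤ T4 M (mat (rep i)))
    (d : Fin 4 → Fin 4 → ℕ) (hd : Cfg d) : β ≤ T4 M d := by
  obtain ⟨σ, i, hi⟩ := comp4 d hd
  rw [← T4_comp M d σ]
  have hc := hd.comp σ
  have h2 : (fun i j => d (σ i) (σ j)) = mat (rep i) := by
    rw [show rep i = code4 (fun i j => d (σ i) (σ j)) from hi, ← eq_mat hc]
  rw [h2]
  exact h i

end Pool.Agent.CH5
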