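import Pool.Agent.Helper93_CH.Hered

/-!
The induction over the number of vertices, keeping the minimality hypothesis.
-/

set_option autoImplicit false

namespace Pool.Agent.CH

/-- every nonempty proper subset contains a vertex of small inner outdegree -/
def MinS {V : Type*} [Fintype V] (E : V → V → Prop) [DecidableRel E] (C D : ℕ) : Prop :=
  ∀ S : Finset V, S.Nonempty → S ≠ Finset.univ →
    ∃ w ∈ S, D * (S.filter (fun v => E w v)).card ≤ C * S.card

/-- the induction over the number of vertices -/
theorem induct' (C D : ℕ)
    (hstep : ∀ (V : Type) [Fintype V] [DecidableEq V] [Nonempty V] (E : V → V → Prop)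
      [DecidableRel E], (∀ u v, E u v → ¬ E v u) → (∀ u v w, E u v → E v w → ¬ E w u) →
      (∀ u : V, C * Fintype.card V ≤ D * (Finset.univ.filter (fun v => E u v)).card) →
      Hered E C D → MinS E C D → False) :
    ∀ (n : ℕ) (V : Type) [Fintype V] [DecidableEq V] [Nonempty V] (E : V → V → Prop)
      [DecidableRel E], Fintype.card V = n → (∀ u v, E u v → ¬ E v u) →
      (∀ u v w, E u v → E v w → ¬ E w u) →
      ∃ u : V, D * (Finset.univ.filter (fun v => E u v)).card < C * Fintype.card V := by
  intro n
  induction n using Nat.strong_induction_on with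
  | _ n ih =>
    intro V _ _ _ E _ hn hE h3
    by_contra hcon
    push Not at hcon
    have hmin : MinS E C D := by
      intro S hS hSne
      have hlt : S.card < n := by
        rw [← hn, ← Finset.card_univ]
        exact Finset.card_lt_card (Finset.ssubset_univ_iff.2 hSne)
      have : Nonempty {x // x ∈ S} := ⟨⟨hS.choose, hS.choose_spec⟩⟩
      obtain ⟨u, hu⟩ := ih S.card hlt {x // x ∈ S} (fun a b => E a.1 b.1)
        (by simp) (fun a b h => hE _ _ h) (fun a b c h1 h2 => h3 _ _ _ h1 h2)
      refine ⟨u.1, u.2, ?_⟩
      have e1 : (Finset.univ.filter (fun v : {x // x ∈ S} => E u.1 v.1)).card =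
          (S.filter (fun v => E u.1 v)).card := by
        rw [← Finset.card_map (Function.Embedding.subtype (fun x => x ∈ S))]
        congr 1
        ext b
        simp only [Finset.mem_map, Finset.mem_filter, Finset.mem_univ, true_and,
          Function.Embedding.coe_subtype, Subtype.exists, exists_and_left, exists_prop,
          exists_eq_right_right]
        tauto
      have e2 : Fintype.card {x // x ∈ S} = S.card := by simp
      rw [e2, e1] at hu
      exact le_of_lt hu
    exact hstep V E hE h3 hcon (hered E hE h3 C D hcon hmin) hmin

end Pool.Agent.CH
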