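import Pool.Agent.Helper99_CHN.Line5

/-!
Kernel evaluation of the five-vertex certificates.
-/

set_option autoImplicit false

namespace Pool.Agent.CH5

open Pool.Agent.CH Pool.Agent.CH6

/-- indices of the canonical codes on three points, `6` for the others -/
def CT3 : ℕ := 0x60606060606060606060606060506060606040606030206060100

/-- exponents of the entries of the matrix of a code -/
def EX5 : ℕ := 0x90807060900050403080500020107040200000603010000

/-- kinds of the entries of the matrix of a code -/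
def FL5 : ℕ := 0x2010101010002010101000002010100000002010000000002

/-- choice: first argument zero, or not -/
noncomputable def sel (n x y : ℕ) : ℕ := Nat.rec (motive := fun _ => ℕ) x (fun _ _ => y) n

lemma sel_zero (x y : ℕ) : sel 0 x y = x := rfl

lemma sel_pos {n : ℕ} (h : 0 < n) (x y : ℕ) : sel n x y = y := by
  obtain ⟨m, rfl⟩ := Nat.exists_eq_succ_of_ne_zero h.ne'
  rfl

/-- entries of the matrix of a code -/
noncomputable def en5 (p k : ℕ) : ℕ :=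
  sel (by8 FL5 k) (Nat.mod (Nat.div p (Nat.pow 3 (by8 EX5 k))) 3)
    (sel (Nat.sub (by8 FL5 k) 1) (iv (Nat.mod (Nat.div p (Nat.pow 3 (by8 EX5 k))) 3)) 0)

lemma en5_eq (p : ℕ) (i j : Fin 5) : en5 p (5 * i + j) = mat5 p i j := by
  have h : ∀ q : ℕ, iv (q % 3) = inv (q % 3) := fun q => iv_eq (Nat.mod_lt _ (by norm_num))
  fin_cases i <;> fin_cases j
  · rfl
  · rfl
  · rfl
  · rfl
  · rfl
  · exact h (p / 3 ^ 0)
  · rfl
  · rfl
  · rfl
  · rfl
  · exact h (p / 3 ^ 1)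
  · exact h (p / 3 ^ 2)
  · rfl
  · rfl
  · rfl
  · exact h (p / 3 ^ 3)
  · exact h (p / 3 ^ 4)
  · exact h (p / 3 ^ 5)
  · rfl
  · rfl
  · exact h (p / 3 ^ 6)
  · exact h (p / 3 ^ 7)
  · exact h (p / 3 ^ 8)
  · exact h (p / 3 ^ 9)
  · rfl

lemma mat5_lt (p : ℕ) (i j : Fin 5) : mat5 p i j < 3 := by
  have h : ∀ q : ℕ, inv (q % 3) < 3 := by
    intro q
    unfold inv
    split_ifs <;> norm_num
  unfold mat5
  split_ifs
  · norm_num
  · exact Nat.mod_lt _ (by norm_num)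
  · exact h _

/-- packed matrix -/
noncomputable def mk5 (p : ℕ) : ℕ := pkN (en5 p) 25

lemma vd_mk5 (p : ℕ) (i j : Fin 5) : vd (mk5 p) (5 * i + j) = mat5 p i j := by
  unfold mk5
  rw [pkN_eq]
  have hlt : ∀ k, k < 25 → en5 p k < BB := by
    intro k hk
    have h1 := en5_eq p ⟨k / 5, by omega⟩ ⟨k % 5, by omega⟩
    have e : 5 * ((⟨k / 5, by omega⟩ : Fin 5) : ℕ) + ((⟨k % 5, by omega⟩ : Fin 5) : ℕ) = k := by
      show 5 * (k / 5) + k % 5 = k
      omega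
    rw [e] at h1
    rw [h1]
    have h2 := mat5_lt p ⟨k / 5, by omega⟩ ⟨k % 5, by omega⟩
    unfold BB
    omega
  have hi := i.2
  have hj := j.2
  rw [vd_pk 25 _ _ hlt (by omega)]
  exact en5_eq p i j

/-- entry of a permuted matrix -/
def st5 (M s k : ℕ) : ℕ := vd M (by8 PT5 (Nat.add (Nat.mul 10 s) k))

/-- term of a permutation -/
noncomputable def tm5 (F : ℕ → ℕ → ℕ → ℕ → ℕ) (M s : ℕ) : ℕ :=
  lit (cd3 (st5 M s 0) (st5 M s 1) (st5 M s 2)) fun t =>
  lit (cd3 (st5 M s 3) (st5 M s 4) (st5 M s 5)) fun f =>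
  lit (cd3 (st5 M s 6) (st5 M s 7) (st5 M s 8)) fun g =>
  lit (st5 M s 9) fun r => F t f g r

/-- sum over the permutations -/
noncomputable def sm5 (F : ℕ → ℕ → ℕ → ℕ → ℕ) (M : ℕ) : ℕ :=
  Nat.rec (motive := fun _ => ℕ) 0 (fun s ih => Nat.add (tm5 F M s) ih) 120

theorem fact_pt5 : ∀ s : Fin 120,
    by8 PT5 (10 * s + 0) = 5 * pf5 s 2 + pf5 s 3 ∧ by8 PT5 (10 * s + 1) = 5 * pf5 s 2 + pf5 s 4 ∧
    by8 PT5 (10 * s + 2) = 5 * pf5 s 3 + pf5 s 4 ∧ by8 PT5 (10 * s + 3) = 5 * pf5 s 2 + pf5 s 0 ∧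
    by8 PT5 (10 * s + 4) = 5 * pf5 s 3 + pf5 s 0 ∧ by8 PT5 (10 * s + 5) = 5 * pf5 s 4 + pf5 s 0 ∧
    by8 PT5 (10 * s + 6) = 5 * pf5 s 2 + pf5 s 1 ∧ by8 PT5 (10 * s + 7) = 5 * pf5 s 3 + pf5 s 1 ∧
    by8 PT5 (10 * s + 8) = 5 * pf5 s 4 + pf5 s 1 ∧
    by8 PT5 (10 * s + 9) = 5 * pf5 s 0 + pf5 s 1 := by decide +kernel

lemma tm5_eq (F : ℕ → ℕ → ℕ → ℕ → ℕ) (M : ℕ) (d : Fin 5 → Fin 5 → ℕ)
    (hM : ∀ i j : Fin 5, vd M (5 * i + j) = d i j) (s : Fin 120) :
    tm5 F M s = F (code3 (fun i j => d (pf5 s i.succ.succ) (pf5 s j.succ.succ)))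
      (prof3 (fun i => d (pf5 s i.succ.succ) (pf5 s 0)))
      (prof3 (fun i => d (pf5 s i.succ.succ) (pf5 s 1))) (d (pf5 s 0) (pf5 s 1)) := by
  obtain ⟨h0, h1, h2, h3, h4, h5, h6, h7, h8, h9⟩ := fact_pt5 s
  have e : ∀ k, st5 M s k = vd M (by8 PT5 (10 * s + k)) := fun k => rfl
  unfold tm5
  simp only [lit_eq]
  rw [e 0, e 1, e 2, e 3, e 4, e 5, e 6, e 7, e 8, e 9, h0, h1, h2, h3, h4, h5, h6, h7, h8, h9]
  simp only [hM, cd3_eq]
  rfl

lemma sm5_eq (F : ℕ → ℕ → ℕ → ℕ → ℕ) (M : ℕ) :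
    (sm5 F M : ℤ) = ∑ s : Fin 120, (tm5 F M s : ℤ) := by
  have h : ∀ n : ℕ, ((Nat.rec (motive := fun _ => ℕ) 0
      (fun s ih => Nat.add (tm5 F M s) ih) n : ℕ) : ℤ) =
      ∑ s ∈ Finset.range n, (tm5 F M s : ℤ) := by
    intro n
    induction n with
    | zero => simp
    | succ n ih =>
      rw [Finset.sum_range_succ, ← ih]
      show ((tm5 F M n + _ : ℕ) : ℤ) = _
      push_cast
      ring
  rw [Fin.sum_univ_eq_sum_range (fun s => (tm5 F M s : ℤ)) 120]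
  exact h 120

/-- from the kernel sum to the symmetrised value -/
theorem T5_le (F : ℕ → ℕ → ℕ → ℕ → ℕ) (W : ℕ → ℕ → ℕ → ℕ → ℤ) (O : ℕ)
    (hF : ∀ t f g r, t < 27 → f < 27 → g < 27 → r < 3 → (O : ℤ) + W t f g r ≤ F t f g r)
    (p : ℕ) (h : Nat.ble (sm5 F (mk5 p)) (Nat.mul 120 O) = true) : T5 W (mat5 p) ≤ 0 := by
  have h1 := Nat.le_of_ble_eq_true h
  have h2 : (sm5 F (mk5 p) : ℤ) ≤ 120 * O := by
    have : ((sm5 F (mk5 p) : ℕ) : ℤ) ≤ ((120 * O : ℕ) : ℤ) := Int.ofNat_le.2 h1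
    push_cast at this
    exact this
  rw [sm5_eq] at h2
  have h3 : T5 W (mat5 p) + 120 * O ≤ ∑ s : Fin 120, (tm5 F (mk5 p) s : ℤ) := by
    unfold T5
    rw [sum_perm5]
    have e : (120 : ℤ) * O = ∑ _s : Fin 120, (O : ℤ) := by
      rw [Finset.sum_const, Finset.card_univ, Fintype.card_fin, nsmul_eq_mul]
      push_cast
      rfl
    rw [e, ← Finset.sum_add_distrib]
    refine Finset.sum_le_sum (fun s _ => ?_)
    rw [tm5_eq F (mk5 p) (mat5 p) (vd_mk5 p) s, add_comm]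
    exact hF _ _ _ _ (code3_lt _ (fun i j => mat5_lt p _ _)) (prof3_lt _ (fun i => mat5_lt p _ _))
      (prof3_lt _ (fun i => mat5_lt p _ _)) (mat5_lt p _ _)
  linarith

/-- the check for a list of codes -/
noncomputable def chkL5 (F : ℕ → ℕ → ℕ → ℕ → ℕ) (O : ℕ) (l : List ℕ) : Bool :=
  List.rec (motive := fun _ => Bool) true
    (fun p _ ih => litB (mk5 p) (fun M => Nat.ble (sm5 F M) (Nat.mul 120 O)) && ih) l

theorem chkL5_spec (F : ℕ → ℕ → ℕ → ℕ → ℕ) (O : ℕ) (l : List ℕ) (h : chkL5 F O l = true) :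
    ∀ p ∈ l, Nat.ble (sm5 F (mk5 p)) (Nat.mul 120 O) = true := by
  induction l with
  | nil => intro p hp; simp at hp
  | cons a l ih =>
    have h' : (litB (mk5 a) (fun M => Nat.ble (sm5 F M) (Nat.mul 120 O)) && chkL5 F O l) =
      true := h
    rw [Bool.and_eq_true, litB_eq] at h'
    intro p hp
    rcases List.mem_cons.1 hp with rfl | hp
    · exact h'.1
    · exact ih h'.2 p hp

section Data

variable (C D A a'' κ O1 K OFF VD AL PTN : ℕ)

/-- position of a digit -/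
def ps (i n k f : ℕ) : ℕ := Nat.add (Nat.mul 27 (Nat.add (Nat.mul n i) k)) f

/-- the vectors -/
def Lk (t : ℕ) : List (ℕ → ℤ) :=
  if by8 CT3 t < 6 then (List.range K).map (fun k f => (vd VD (ps (by8 CT3 t) K k f) : ℤ) - O1)
  else []

/-- the multipliers -/
def alk (t j f : ℕ) : ℕ := if by8 CT3 t < 6 then vd AL (ps (by8 CT3 t) 20 j f) else 0

/-- sum of products -/
noncomputable def sqk (i f g : ℕ) : ℕ := Nat.rec (motive := fun _ => ℕ) 0
  (fun k ih => Nat.add (Nat.mul (vd VD (ps i K k f)) (vd VD (ps i K k g))) ih) K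

/-- sum -/
noncomputable def svk (i f : ℕ) : ℕ := Nat.rec (motive := fun _ => ℕ) 0
  (fun k ih => Nat.add (vd VD (ps i K k f)) ih) K

/-- rows -/
noncomputable def rwk (i f g r : ℕ) : ℕ := Nat.rec (motive := fun _ => ℕ) 0
  (fun j ih => Nat.add (Nat.mul (vd AL (ps i 20 j f))
    (vd PTN (Nat.add (Nat.mul 81 j) (Nat.add (Nat.mul 27 r) g)))) ih) 20

/-- target -/
def tgk (r : ℕ) : ℕ := Nat.mul κ (Nat.add (Nat.mul A (Nat.sub 1 r)) a'')

/-- the value of an ordering, with offset -/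
noncomputable def FA (t f g r : ℕ) : ℕ :=
  lit (by8 CT3 t) fun i => sel (Nat.sub 6 i) (Nat.sub OFF (tgk A a'' κ r))
    (Nat.sub (Nat.add OFF (Nat.add (sqk K VD i f g) (Nat.add (Nat.mul K (Nat.mul O1 O1))
      (rwk AL PTN i f g r)))) (Nat.add (tgk A a'' κ r) (Nat.mul O1 (Nat.add (svk K VD i f)
      (svk K VD i g)))))

/-- the table of patterns -/
def OkP : Prop := ∀ j : Fin 20, ∀ g : Fin 27, ∀ r : Fin 3,
  (vd PTN (81 * j + (27 * r + g)) : ℤ) = pat C D j g r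

lemma sqk_eq (i f g : ℕ) : (sqk K VD i f g : ℤ) = ∑ k ∈ Finset.range K,
    (vd VD (ps i K k f) : ℤ) * (vd VD (ps i K k g) : ℤ) := by
  have h : ∀ n : ℕ, ((Nat.rec (motive := fun _ => ℕ) 0
      (fun k ih => Nat.add (Nat.mul (vd VD (ps i K k f)) (vd VD (ps i K k g))) ih) n : ℕ) : ℤ) =
      ∑ k ∈ Finset.range n, (vd VD (ps i K k f) : ℤ) * (vd VD (ps i K k g) : ℤ) := by
    intro n
    induction n with
    | zero => simp
    | succ n ih =>
      rw [Finset.sum_range_succ, ← ih]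
      show ((vd VD (ps i K n f) * vd VD (ps i K n g) + _ : ℕ) : ℤ) = _
      push_cast
      ring
  exact h K

lemma svk_eq (i f : ℕ) : (svk K VD i f : ℤ) = ∑ k ∈ Finset.range K,
    (vd VD (ps i K k f) : ℤ) := by
  have h : ∀ n : ℕ, ((Nat.rec (motive := fun _ => ℕ) 0
      (fun k ih => Nat.add (vd VD (ps i K k f)) ih) n : ℕ) : ℤ) =
      ∑ k ∈ Finset.range n, (vd VD (ps i K k f) : ℤ) := by
    intro n
    induction n with
    | zero => simp
    | succ n ih =>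
      rw [Finset.sum_range_succ, ← ih]
      show ((vd VD (ps i K n f) + _ : ℕ) : ℤ) = _
      push_cast
      ring
  exact h K

lemma rwk_eq (i f g r : ℕ) : (rwk AL PTN i f g r : ℤ) = ∑ j ∈ Finset.range 20,
    (vd AL (ps i 20 j f) : ℤ) * (vd PTN (81 * j + (27 * r + g)) : ℤ) := by
  have h : ∀ n : ℕ, ((Nat.rec (motive := fun _ => ℕ) 0
      (fun j ih => Nat.add (Nat.mul (vd AL (ps i 20 j f))
        (vd PTN (Nat.add (Nat.mul 81 j) (Nat.add (Nat.mul 27 r) g)))) ih) n : ℕ) : ℤ) =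
      ∑ j ∈ Finset.range n, (vd AL (ps i 20 j f) : ℤ) *
        (vd PTN (81 * j + (27 * r + g)) : ℤ) := by
    intro n
    induction n with
    | zero => simp
    | succ n ih =>
      rw [Finset.sum_range_succ, ← ih]
      show ((vd AL (ps i 20 n f) * vd PTN (81 * n + (27 * r + g)) + _ : ℕ) : ℤ) = _
      push_cast
      ring
  exact h 20

lemma tgk_eq (r : ℕ) : (tgk A a'' κ r : ℤ) = tgt A a'' κ r := by
  show ((κ * (A * (1 - r) + a'') : ℕ) : ℤ) = κ * (A * (if r = 0 then 1 else 0) + a'')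
  rcases Nat.eq_zero_or_pos r with h | h
  · rw [h]; push_cast; simp
  · rw [if_neg h.ne', show 1 - r = 0 by omega]; push_cast; simp

lemma sqV_Lk (t f g : ℕ) (ht : by8 CT3 t < 6) : sqV (Lk O1 K VD t) f g =
    ∑ k ∈ Finset.range K, ((vd VD (ps (by8 CT3 t) K k f) : ℤ) - O1) *
      ((vd VD (ps (by8 CT3 t) K k g) : ℤ) - O1) := by
  unfold sqV Lk
  rw [if_pos ht, List.map_map]
  have h : ∀ n : ℕ, ∀ x : ℕ → ℤ, ((List.range n).map x).sum = ∑ k ∈ Finset.range n, x k := by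
    intro n x
    exact (sum_range_list n x).symm
  rw [← h]
  rfl

/-- the kernel value is at least the value of the certificate -/
theorem FA_ge (hP : OkP C D PTN) (t f g r : ℕ) (hg : g < 27) (hr : r < 3) :
    (OFF : ℤ) + (W0 C D (Lk O1 K VD) (alk AL) (fun _ _ _ _ => 0) t f g r - tgt A a'' κ r) ≤
      FA A a'' κ O1 K OFF VD AL PTN t f g r := by
  unfold FA
  rw [lit_eq]
  rw [← tgk_eq]
  by_cases ht : by8 CT3 t < 6
  · rw [sel_pos (show 0 < Nat.sub 6 (by8 CT3 t) from Nat.sub_pos_of_lt ht)]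
    have h1 : ∀ a b : ℕ, (a : ℤ) - b ≤ (Nat.sub a b : ℕ) := by
      intro a b
      show (a : ℤ) - b ≤ ((a - b : ℕ) : ℤ)
      omega
    refine le_trans (le_of_eq ?_) (h1 _ _)
    unfold W0
    rw [sqV_Lk O1 K VD t f g ht]
    have h2 : ∑ j ∈ Finset.range 20, (alk AL t j f : ℤ) * pat C D j g r =
        rwk AL PTN (by8 CT3 t) f g r := by
      rw [rwk_eq]
      refine Finset.sum_congr rfl (fun j hj => ?_)
      unfold alk
      rw [if_pos ht]
      congr 1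
      exact (hP ⟨j, Finset.mem_range.1 hj⟩ ⟨g, hg⟩ ⟨r, hr⟩).symm
    rw [h2]
    have h3 : ∑ k ∈ Finset.range K, ((vd VD (ps (by8 CT3 t) K k f) : ℤ) - O1) *
        ((vd VD (ps (by8 CT3 t) K k g) : ℤ) - O1) = sqk K VD (by8 CT3 t) f g + K * (O1 * O1) -
        O1 * (svk K VD (by8 CT3 t) f + svk K VD (by8 CT3 t) g) := by
      rw [sqk_eq, svk_eq, svk_eq, ← Finset.sum_add_distrib, Finset.mul_sum]
      have e : ((K : ℤ) * (O1 * O1)) = ∑ _k ∈ Finset.range K, ((O1 : ℤ) * O1) := by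
        rw [Finset.sum_const, Finset.card_range, nsmul_eq_mul]
      rw [e, ← Finset.sum_add_distrib, ← Finset.sum_sub_distrib]
      refine Finset.sum_congr rfl (fun k _ => ?_)
      ring
    rw [h3]
    simp only [Nat.add_eq, Nat.mul_eq]
    push_cast
    ring
  · rw [show Nat.sub 6 (by8 CT3 t) = 0 from Nat.sub_eq_zero_of_le (not_lt.1 ht), sel_zero]
    have h1 : ∀ a b : ℕ, (a : ℤ) - b ≤ (Nat.sub a b : ℕ) := by
      intro a b
      show (a : ℤ) - b ≤ ((a - b : ℕ) : ℤ)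
      omega
    refine le_trans (le_of_eq ?_) (h1 _ _)
    unfold W0 Lk alk
    simp only [if_neg ht]
    simp [sqV]
    ring

/-- domination of the heredity rows -/
def OkD : Prop := ∀ t : Fin 27, by8 CT3 t < 6 → ∀ f : Fin 27, ∀ m : Fin 16,
  vd AL (ps (by8 CT3 t) 20 (4 + m) f) = 0 ∨ ∃ z : Fin 4, okz5 t f m z

/-- the check on four points -/
def OkB (β : ℕ) : Prop := ∀ i : Fin 32, 24 * β ≤ ∑ s : Fin 24, ∑ j ∈ Finset.range 20,
  alk AL (code3 (fun a b => mat (rep i) (pf s a.succ) (pf s b.succ))) j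
    (prof3 (fun a => mat (rep i) (pf s a.succ) (pf s 0)))

/-- THE LINE from the kernel checks. -/
theorem line_of_data (b' β : ℕ) (hP : OkP C D PTN) (hD : OkD AL) (hB : OkB AL β)
    (hκ : 0 < κ) (hβ : κ * b' ≤ β)
    (h : ∀ p ∈ R5L, Nat.ble (sm5 (FA A a'' κ O1 K OFF VD AL PTN) (mk5 p)) (Nat.mul 120 OFF) =
      true) : Line C D A (-(a'' : ℤ)) b' := by
  refine line_of C D A a'' b' κ β (by positivity) (by positivity) (by positivity)
    (Lk O1 K VD) (alk AL) ?_ ?_ ?_ (by exact_mod_cast hκ) (by exact_mod_cast hβ)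
  · intro t f m ht hf hm h0
    unfold alk at h0
    by_cases hc : by8 CT3 t < 6
    · rw [if_pos hc] at h0
      rcases hD ⟨t, ht⟩ hc ⟨f, hf⟩ ⟨m, hm⟩ with h1 | h1
      · have h1' : vd AL (ps (by8 CT3 t) 20 (4 + m) f) = 0 := h1
        omega
      · exact h1
    · rw [if_neg hc] at h0
      omega
  · intro d hd
    refine red5 _ (fun p hp => ?_) d hd
    exact T5_le (FA A a'' κ O1 K OFF VD AL PTN) _ OFF
      (fun t f g r _ _ hg hr => FA_ge C D A a'' κ O1 K OFF VD AL PTN hP t f g r hg hr) p (h p hp)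
  · intro d hd
    refine red4 _ _ (fun i => ?_) d hd
    have h1 := hB i
    unfold T4
    rw [sum_perm]
    have h2 : ((24 * β : ℕ) : ℤ) ≤ ((∑ s : Fin 24, ∑ j ∈ Finset.range 20,
      alk AL (code3 (fun a b => mat (rep i) (pf s a.succ) (pf s b.succ))) j
      (prof3 (fun a => mat (rep i) (pf s a.succ) (pf s 0))) : ℕ) : ℤ) := by
      exact_mod_cast h1
    push_cast at h2
    refine le_trans h2 (le_of_eq ?_)
    refine Finset.sum_congr rfl (fun s _ => ?_)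
    unfold hval4 M0
    rw [add_zero]
    rfl

end Data

end Pool.Agent.CH5
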