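import Pool.Agent.Helper99_CHN.Rows5

/-!
Lines from five-vertex certificates.
-/

set_option autoImplicit false

namespace Pool.Agent.CH5

open Pool.Agent.CH Pool.Agent.CH6

/-- pattern number `j`: outdegree rows for `j < 4`, heredity rows with mask `j - 4` -/
def pat (C D : ℤ) (j g r : ℕ) : ℤ :=
  if h : j < 4 then dgp D ⟨j, h⟩ g r else lhp C D (j - 4) g r

/-- value of the certificate -/
def W0 (C D : ℤ) (L : ℕ → List (ℕ → ℤ)) (al : ℕ → ℕ → ℕ → ℕ) (X : ℕ → ℕ → ℕ → ℕ → ℤ)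
    (t f g r : ℕ) : ℤ :=
  sqV (L t) f g + (∑ j ∈ Finset.range 20, (al t j f : ℤ) * pat C D j g r) + X t f g r

/-- total weight of the rows -/
def M0 (al : ℕ → ℕ → ℕ → ℕ) (MX : ℕ → ℕ → ℤ) (t f : ℕ) : ℤ :=
  (∑ j ∈ Finset.range 20, (al t j f : ℤ)) + MX t f

/-- target value -/
def tgt (A a'' κ : ℤ) (r : ℕ) : ℤ := κ * (A * (if r = 0 then 1 else 0) + a'')

/-- the hypotheses on additional rows -/
def XRows (V : Type) [Fintype V] (E : V → V → Prop) [DecidableRel E] (δ : ℤ)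
    (X : ℕ → ℕ → ℕ → ℕ → ℤ) (MX : ℕ → ℕ → ℤ) : Prop :=
  ∀ x : Fin 3 → V, δ * ∑ a, MX (code3 (fun i j => rel E (x i) (x j)))
      (prof3 (fun i => rel E (x i) a)) ≤
    ∑ a, ∑ b, X (code3 (fun i j => rel E (x i) (x j)))
      (prof3 (fun i => rel E (x i) a)) (prof3 (fun i => rel E (x i) b)) (rel E a b)

section

variable {V : Type} [Fintype V] [DecidableEq V] (E : V → V → Prop) [DecidableRel E]

theorem row_ge (hE : ∀ u v, E u v → ¬ E v u) (h3 : ∀ u v w, E u v → E v w → ¬ E w u)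
    (C D : ℕ) (hmin : MinA E C D) (δ : ℤ)
    (hδ : ∀ u : V, δ ≤ (D : ℤ) * ((Finset.univ.filter (fun v => E u v)).card : ℤ))
    (L : ℕ → List (ℕ → ℤ)) (al : ℕ → ℕ → ℕ → ℕ) (X : ℕ → ℕ → ℕ → ℕ → ℤ) (MX : ℕ → ℕ → ℤ)
    (hX : XRows V E δ X MX)
    (hdom : ∀ t f m, t < 27 → f < 27 → m < 16 → 0 < al t (4 + m) f →
      ∃ z : Fin 4, okz5 t f m z) (x : Fin 3 → V) :
    δ * ∑ a, M0 al MX (code3 (fun i j => rel E (x i) (x j))) (prof3 (fun i => rel E (x i) a)) ≤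
      ∑ a, ∑ b, W0 C D L al X (code3 (fun i j => rel E (x i) (x j)))
        (prof3 (fun i => rel E (x i) a)) (prof3 (fun i => rel E (x i) b)) (rel E a b) := by
  have ht : code3 (fun i j => rel E (x i) (x j)) < 27 := code3_lt _ (fun i j => rel_lt E _ _)
  have hx := hX x
  generalize htt : code3 (fun i j => rel E (x i) (x j)) = t at ht hx
  unfold M0 W0
  simp only [Finset.sum_add_distrib]
  have h1 := sq_nonneg' (L t) (fun a : V => prof3 (fun i => rel E (x i) a))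
  have h2 : δ * ∑ a : V, ∑ j ∈ Finset.range 20,
      (al t j (prof3 (fun i => rel E (x i) a)) : ℤ) ≤
      ∑ a : V, ∑ b : V, ∑ j ∈ Finset.range 20,
        (al t j (prof3 (fun i => rel E (x i) a)) : ℤ) *
          pat C D j (prof3 (fun i => rel E (x i) b)) (rel E a b) := by
    rw [Finset.mul_sum]
    refine Finset.sum_le_sum (fun a _ => ?_)
    rw [Finset.sum_comm, Finset.mul_sum]
    refine Finset.sum_le_sum (fun j hj => ?_)
    rw [← Finset.mul_sum, mul_comm]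
    have hf : prof3 (fun i => rel E (x i) a) < 27 := prof3_lt _ (fun i => rel_lt E _ _)
    by_cases h0 : al t j (prof3 (fun i => rel E (x i) a)) = 0
    · rw [h0]; simp
    refine mul_le_mul_of_nonneg_left ?_ (by positivity)
    by_cases h4 : j < 4
    · unfold pat
      simp only [dif_pos h4]
      exact dgp_ge E D δ hδ x a ⟨j, h4⟩
    · unfold pat
      simp only [dif_neg h4]
      rw [Finset.mem_range] at hj
      obtain ⟨z, hz⟩ := hdom t _ (j - 4) ht hf (by omega) (by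
        rw [show 4 + (j - 4) = j by omega]
        exact Nat.pos_of_ne_zero h0)
      rw [← htt] at hz
      exact lhp_ge E hE h3 C D hmin δ hδ x a (j - 4) z hz
  rw [mul_add]
  linarith

/-- THE LINE from the certificate, for one digraph. -/
theorem line_one [Nonempty V] (hE : ∀ u v, E u v → ¬ E v u)
    (h3 : ∀ u v w, E u v → E v w → ¬ E w u)
    (C D : ℕ) (hmin : MinA E C D) (δ : ℤ)
    (hδ : ∀ u : V, δ ≤ (D : ℤ) * ((Finset.univ.filter (fun v => E u v)).card : ℤ))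
    (A a'' b' κ β : ℤ) (hA0 : 0 ≤ A) (ha0 : 0 ≤ a'') (hb0 : 0 ≤ b')
    (L : ℕ → List (ℕ → ℤ)) (al : ℕ → ℕ → ℕ → ℕ) (X : ℕ → ℕ → ℕ → ℕ → ℤ) (MX : ℕ → ℕ → ℤ)
    (hX : 0 < δ → XRows V E δ X MX)
    (hdom : ∀ t f m, t < 27 → f < 27 → m < 16 → 0 < al t (4 + m) f →
      ∃ z : Fin 4, okz5 t f m z)
    (hA : ∀ d : Fin 5 → Fin 5 → ℕ, Cfg d →
      T5 (fun t f g r => W0 C D L al X t f g r - tgt A a'' κ r) d ≤ 0)
    (hB : ∀ d : Fin 4 → Fin 4 → ℕ, Cfg d → 24 * β ≤ T4 (M0 al MX) d)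
    (hκ : 0 < κ) (hβ : κ * b' ≤ β) :
    -a'' * (Fintype.card V : ℤ) ^ 2 + b' * δ * (Fintype.card V : ℤ) ≤
      A * ∑ a : V, ∑ b : V, (if rel E a b = 0 then (1 : ℤ) else 0) := by
  have hN0 : 0 ≤ ∑ a : V, ∑ b : V, (if rel E a b = 0 then (1 : ℤ) else 0) := by
    refine Finset.sum_nonneg (fun a _ => Finset.sum_nonneg (fun b _ => ?_))
    split_ifs <;> norm_num
  have hs0 : (0 : ℤ) < (Fintype.card V : ℤ) := by
    exact_mod_cast Fintype.card_pos
  have hAN := mul_nonneg hA0 hN0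
  rcases le_or_gt δ 0 with hd | hd
  · have h1 : b' * δ * (Fintype.card V : ℤ) ≤ 0 := by
      have : b' * δ ≤ 0 := mul_nonpos_of_nonneg_of_nonpos hb0 hd
      exact mul_nonpos_of_nonpos_of_nonneg this hs0.le
    have h2 : 0 ≤ a'' * (Fintype.card V : ℤ) ^ 2 := by positivity
    linarith
  have hneg : ∑ x : Fin 5 → V, T5 (fun t f g r => W0 C D L al X t f g r - tgt A a'' κ r)
      (fun i j => rel E (x i) (x j)) ≤ 0 :=
    Finset.sum_nonpos (fun x _ => hA _ (cfg_rel E hE h3 x))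
  rw [sum_T5] at hneg
  simp only [Finset.sum_sub_distrib] at hneg
  have hpos : δ * ∑ x : Fin 3 → V, ∑ a, M0 al MX (code3 (fun i j => rel E (x i) (x j)))
      (prof3 (fun i => rel E (x i) a)) ≤ ∑ x : Fin 3 → V, ∑ a, ∑ b, W0 C D L al X
        (code3 (fun i j => rel E (x i) (x j)))
        (prof3 (fun i => rel E (x i) a)) (prof3 (fun i => rel E (x i) b)) (rel E a b) := by
    rw [Finset.mul_sum]
    exact Finset.sum_le_sum (fun x _ =>
      row_ge E hE h3 C D hmin δ hδ L al X MX (hX hd) hdom x)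
  have hM : β * (Fintype.card V : ℤ) ^ 4 ≤ ∑ x : Fin 3 → V, ∑ a, M0 al MX
      (code3 (fun i j => rel E (x i) (x j))) (prof3 (fun i => rel E (x i) a)) := by
    have h1 : ∑ _x : Fin 4 → V, (24 * β) ≤ ∑ x : Fin 4 → V, T4 (M0 al MX)
        (fun i j => rel E (x i) (x j)) :=
      Finset.sum_le_sum (fun x _ => hB _ (cfg_rel E hE h3 x))
    rw [sum_T4, Finset.sum_const, Finset.card_univ, Fintype.card_fun, Fintype.card_fin,
      nsmul_eq_mul] at h1
    push_cast at h1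
    linarith
  have hconst : ∑ _x : Fin 3 → V, ∑ a : V, ∑ b : V, tgt A a'' κ (rel E a b) =
      (Fintype.card V : ℤ) ^ 3 * (κ * (A * (∑ a : V, ∑ b : V,
        (if rel E a b = 0 then (1 : ℤ) else 0)) + a'' * (Fintype.card V : ℤ) ^ 2)) := by
    rw [Finset.sum_const, Finset.card_univ, Fintype.card_fun, Fintype.card_fin, nsmul_eq_mul]
    push_cast
    congr 1
    unfold tgt
    simp only [← Finset.mul_sum, Finset.sum_add_distrib]
    congr 1
    congr 1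
    simp only [Finset.sum_const, Finset.card_univ, nsmul_eq_mul]
    ring
  have hconst' : ∑ x : Fin 3 → V, ∑ a : V, ∑ b : V, tgt A a'' κ (rel E a b) =
      (Fintype.card V : ℤ) ^ 3 * (κ * (A * (∑ a : V, ∑ b : V,
        (if rel E a b = 0 then (1 : ℤ) else 0)) + a'' * (Fintype.card V : ℤ) ^ 2)) := hconst
  rw [hconst'] at hneg
  generalize hNN : ∑ a : V, ∑ b : V, (if rel E a b = 0 then (1 : ℤ) else 0) = N0 at *
  generalize hss : (Fintype.card V : ℤ) = s at *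
  have h5 : δ * (β * s ^ 4) ≤ s ^ 3 * (κ * (A * N0 + a'' * s ^ 2)) := by
    have := mul_le_mul_of_nonneg_left hM hd.le
    linarith
  have h6 : δ * (κ * b' * s ^ 4) ≤ δ * (β * s ^ 4) :=
    mul_le_mul_of_nonneg_left (mul_le_mul_of_nonneg_right hβ (by positivity)) hd.le
  have h7 : (s ^ 3 * κ) * (δ * b' * s) ≤ (s ^ 3 * κ) * (A * N0 + a'' * s ^ 2) := by
    have e1 : (s ^ 3 * κ) * (δ * b' * s) = δ * (κ * b' * s ^ 4) := by ring
    have e2 : (s ^ 3 * κ) * (A * N0 + a'' * s ^ 2) = s ^ 3 * (κ * (A * N0 + a'' * s ^ 2)) := by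
      ring
    rw [e1, e2]
    linarith
  have h8 := le_of_mul_le_mul_left h7 (by positivity)
  linarith

end

/-- THE LINE from the certificate, no additional rows. -/
theorem line_of (C D : ℕ) (A a'' b' κ β : ℤ) (hA0 : 0 ≤ A) (ha0 : 0 ≤ a'') (hb0 : 0 ≤ b')
    (L : ℕ → List (ℕ → ℤ)) (al : ℕ → ℕ → ℕ → ℕ)
    (hdom : ∀ t f m, t < 27 → f < 27 → m < 16 → 0 < al t (4 + m) f →
      ∃ z : Fin 4, okz5 t f m z)
    (hA : ∀ d : Fin 5 → Fin 5 → ℕ, Cfg d →
      T5 (fun t f g r => W0 C D L al (fun _ _ _ _ => 0) t f g r - tgt A a'' κ r) d ≤ 0)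
    (hB : ∀ d : Fin 4 → Fin 4 → ℕ, Cfg d → 24 * β ≤ T4 (M0 al (fun _ _ => 0)) d)
    (hκ : 0 < κ) (hβ : κ * b' ≤ β) : Line C D A (-a'') b' := by
  intro V _ _ _ E _ hE h3 hmin δ hδ
  exact line_one E hE h3 C D hmin δ hδ A a'' b' κ β hA0 ha0 hb0 L al _ _
    (fun _ x => by simp) hdom hA hB hκ hβ

end Pool.Agent.CH5
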