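import Pool.Agent.Helper99_CHN.Five

/-!
Rows with three roots and a free parameter for the minimum outdegree.
-/

set_option autoImplicit false

namespace Pool.Agent.CH5

open Pool.Agent.CH Pool.Agent.CH6

/-- digit `i` of a profile -/
def dg3 (g i : ℕ) : ℕ := g / 3 ^ i % 3

/-- relation of `b` to root `i` (`i = 3` is the vertex `a`) -/
def eb5 (g r : ℕ) (i : Fin 4) : ℕ := if i = 3 then r else dg3 g i

/-- relation code between the roots `i` and `z` (`3` is the vertex `a`) -/
def rc5 (t f : ℕ) (i z : Fin 4) : ℕ :=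
  if z = 3 then dg3 f i else if i = 3 then inv (dg3 f z)
  else if i < z then t / 3 ^ ((z : ℕ) * ((z : ℕ) - 1) / 2 + i) % 3
  else inv (t / 3 ^ ((i : ℕ) * ((i : ℕ) - 1) / 2 + z) % 3)

/-- bit of a mask -/
def mb4 (mask : ℕ) (i : Fin 4) : Prop := mask / 2 ^ (i : ℕ) % 2 = 1

instance (mask : ℕ) (i : Fin 4) : Decidable (mb4 mask i) := by unfold mb4; infer_instance

/-- all roots of the mask have an edge to the root `z` or are `z` -/
def okz5 (t f mask : ℕ) (z : Fin 4) : Prop := ∀ i : Fin 4, mb4 mask i → i = z ∨ rc5 t f i z = 1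

instance (t f mask : ℕ) (z : Fin 4) : Decidable (okz5 t f mask z) := by
  unfold okz5; infer_instance

/-- heredity pattern -/
def lhp (C D : ℤ) (mask g r : ℕ) : ℤ :=
  D - (if ∃ i : Fin 4, mb4 mask i ∧ eb5 g r i = 2 then D else 0) -
    (if ∀ i : Fin 4, mb4 mask i → eb5 g r i = 1 then D - C else 0)

/-- outdegree pattern -/
def dgp (D : ℤ) (i : Fin 4) (g r : ℕ) : ℤ := D * bit1 (eb5 g r i)

section

variable {V : Type*} (E : V → V → Prop) [DecidableRel E]

lemma dg3_prof (e : Fin 3 → ℕ) (he : ∀ i, e i < 3) (i : Fin 3) : dg3 (prof3 e) i = e i := by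
  have h0 := he 0
  have h1 := he 1
  have h2 := he 2
  unfold dg3 prof3
  fin_cases i <;> simp <;> omega

lemma prof3_lt (e : Fin 3 → ℕ) (he : ∀ i, e i < 3) : prof3 e < 27 := by
  have h0 := he 0
  have h1 := he 1
  have h2 := he 2
  unfold prof3
  omega

lemma code3_lt (e : Fin 3 → Fin 3 → ℕ) (he : ∀ i j, e i j < 3) : code3 e < 27 := by
  have h0 := he 0 1
  have h1 := he 0 2
  have h2 := he 1 2
  unfold code3
  omega

lemma code3_dg (d : Fin 3 → Fin 3 → ℕ) (hd : ∀ i j, d i j < 3) (i j : Fin 3) (hij : i < j) :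
    code3 d / 3 ^ ((j : ℕ) * ((j : ℕ) - 1) / 2 + i) % 3 = d i j := by
  have h01 := hd 0 1
  have h02 := hd 0 2
  have h12 := hd 1 2
  unfold code3
  fin_cases i <;> fin_cases j <;> simp at hij ⊢ <;> omega

/-- the four roots -/
def y4 (x : Fin 3 → V) (a : V) (i : Fin 4) : V := if h : (i : ℕ) < 3 then x ⟨i, h⟩ else a

lemma y4_castSucc (x : Fin 3 → V) (a : V) (i : Fin 3) : y4 x a i.castSucc = x i := by
  unfold y4
  have : ((i.castSucc : Fin 4) : ℕ) < 3 := i.2
  rw [dif_pos this]
  rfl

lemma eb5_eq (x : Fin 3 → V) (a b : V) (i : Fin 4) :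
    eb5 (prof3 (fun i => rel E (x i) b)) (rel E a b) i = rel E (y4 x a i) b := by
  unfold eb5
  refine Fin.lastCases ?_ (fun j => ?_) i
  · rfl
  · have h : (j.castSucc : Fin 4) ≠ 3 := by
      intro h
      have := congrArg Fin.val h
      simp at this
      omega
    rw [if_neg h, y4_castSucc]
    exact dg3_prof (fun i => rel E (x i) b) (fun i => rel_lt E (x i) b) j

lemma rc5_eq (hE : ∀ u v, E u v → ¬ E v u) (x : Fin 3 → V) (a : V) (i z : Fin 4)
    (hiz : i ≠ z) :
    rc5 (code3 (fun i j => rel E (x i) (x j))) (prof3 (fun i => rel E (x i) a)) i z =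
      rel E (y4 x a i) (y4 x a z) := by
  have hne : ∀ j : Fin 3, (j.castSucc : Fin 4) ≠ 3 := by
    intro j h
    have := congrArg Fin.val h
    simp at this
    omega
  have h44 : (Fin.last 3 : Fin 4) = 3 := rfl
  unfold rc5
  revert hiz
  refine Fin.lastCases ?_ (fun z' => ?_) z
  · intro hiz
    rw [if_pos h44]
    revert hiz
    refine Fin.lastCases ?_ (fun i' => ?_) i
    · intro h; exact absurd rfl h
    · intro _
      rw [y4_castSucc]
      exact dg3_prof (fun i => rel E (x i) a) (fun i => rel_lt E (x i) a) i'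
  · intro hiz
    rw [if_neg (hne z')]
    revert hiz
    refine Fin.lastCases ?_ (fun i' => ?_) i
    · intro _
      rw [if_pos h44, y4_castSucc]
      have h := dg3_prof (fun i => rel E (x i) a) (fun i => rel_lt E (x i) a) z'
      show inv (dg3 _ ((z' : Fin 3) : ℕ)) = rel E a (x z')
      rw [h, ← rel_inv E hE]
    · intro hiz
      rw [if_neg (hne i'), y4_castSucc, y4_castSucc]
      have hiz' : i' ≠ z' := fun h => hiz (by rw [h])
      by_cases hlt : i' < z'
      · have : (i'.castSucc : Fin 4) < z'.castSucc := hlt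
        rw [if_pos this]
        exact code3_dg (fun i j => rel E (x i) (x j)) (fun i j => rel_lt E _ _) i' z' hlt
      · have : ¬ (i'.castSucc : Fin 4) < z'.castSucc := hlt
        rw [if_neg this]
        have hgt : z' < i' := lt_of_le_of_ne (not_lt.1 hlt) (Ne.symm hiz')
        have h := code3_dg (fun i j => rel E (x i) (x j)) (fun i j => rel_lt E _ _) z' i' hgt
        show inv (_ / 3 ^ (((i' : Fin 3) : ℕ) * (((i' : Fin 3) : ℕ) - 1) / 2 +
          ((z' : Fin 3) : ℕ)) % 3) = _
        rw [h, ← rel_inv E hE]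

end

section

variable {V : Type*} [Fintype V] [DecidableEq V] (E : V → V → Prop) [DecidableRel E]

/-- the minimality hypothesis for all nonempty subsets -/
def MinA (C D : ℕ) : Prop :=
  ∀ T : Finset V, T.Nonempty → ∃ w ∈ T, D * (T.filter (fun v => E w v)).card ≤ C * T.card

omit [DecidableEq V] in
theorem hered_delta (hE : ∀ u v, E u v → ¬ E v u) (h3 : ∀ u v w, E u v → E v w → ¬ E w u)
    (C D : ℕ) (hmin : MinA E C D) (δ : ℤ)
    (hδ : ∀ u : V, δ ≤ (D : ℤ) * ((Finset.univ.filter (fun v => E u v)).card : ℤ))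
    (R : Finset V) (z : V) (hz : ∀ r ∈ R, r = z ∨ E r z) :
    δ ≤ (D : ℤ) * (Fintype.card V : ℤ) - (D : ℤ) * (Set.ncard {b | ∃ r ∈ R, E b r} : ℤ) -
      ((D : ℤ) - C) * (Set.ncard {b | ∀ r ∈ R, E r b} : ℤ) := by
  classical
  let N : Finset V := Finset.univ.filter (fun b => ∃ r ∈ R, E b r)
  let S : Finset V := Finset.univ.filter (fun b => ∀ r ∈ R, E r b)
  have hNc : Set.ncard {b | ∃ r ∈ R, E b r} = N.card := by
    rw [Set.ncard_eq_toFinset_card']
    congr 1
    ext b; simp [N]
  have hSc : Set.ncard {b | ∀ r ∈ R, E r b} = S.card := by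
    rw [Set.ncard_eq_toFinset_card']
    congr 1
    ext b; simp [S]
  rw [hNc, hSc]
  have hD : (0 : ℤ) ≤ D := by positivity
  have hNS : Disjoint N S := by
    rw [Finset.disjoint_left]
    intro b hb hb'
    simp only [N, S, Finset.mem_filter, Finset.mem_univ, true_and] at hb hb'
    obtain ⟨r, hr, hbr⟩ := hb
    exact hE _ _ hbr (hb' r hr)
  have hNSc : N.card + S.card ≤ Fintype.card V := by
    rw [← Finset.card_union_of_disjoint hNS]
    exact Finset.card_le_univ _
  have hbound : ∀ w : V, (∀ b, E w b → b ∉ N) →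
      ((Finset.univ.filter (fun v => E w v)).card : ℤ) ≤
        ((S.filter (fun v => E w v)).card : ℤ) + ((Fintype.card V : ℤ) - N.card - S.card) := by
    intro w hw
    have hsub : Finset.univ.filter (fun v => E w v) ⊆
        (S.filter (fun v => E w v)) ∪ (Finset.univ \ (N ∪ S)) := by
      intro b hb
      simp only [Finset.mem_filter, Finset.mem_univ, true_and] at hb
      simp only [Finset.mem_union, Finset.mem_filter, Finset.mem_sdiff, Finset.mem_univ,
        true_and, not_or]
      by_cases hbS : b ∈ S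
      · exact Or.inl ⟨hbS, hb⟩
      · exact Or.inr ⟨hw b hb, hbS⟩
    have h1 := Finset.card_le_card hsub
    have h2 := Finset.card_union_le (S.filter (fun v => E w v)) (Finset.univ \ (N ∪ S))
    have h4 : (Finset.univ \ (N ∪ S)).card = Fintype.card V - (N.card + S.card) := by
      rw [Finset.card_sdiff_of_subset (Finset.subset_univ _),
        Finset.card_union_of_disjoint hNS, Finset.card_univ]
    have h5 : (Finset.univ.filter (fun v => E w v)).card ≤
        (S.filter (fun v => E w v)).card + (Fintype.card V - (N.card + S.card)) := by omega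
    have h6 : ((Fintype.card V - (N.card + S.card) : ℕ) : ℤ) =
        (Fintype.card V : ℤ) - (N.card + S.card) := by
      rw [Nat.cast_sub hNSc]; push_cast; ring
    have h7 : ((Finset.univ.filter (fun v => E w v)).card : ℤ) ≤
        ((S.filter (fun v => E w v)).card : ℤ) +
          ((Fintype.card V - (N.card + S.card) : ℕ) : ℤ) := by exact_mod_cast h5
    rw [h6] at h7
    linarith
  rcases S.eq_empty_or_nonempty with hS | hS
  · have hzN : ∀ b, E z b → b ∉ N := by
      intro b hb hbN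
      simp only [N, Finset.mem_filter, Finset.mem_univ, true_and] at hbN
      obtain ⟨r, hr, hbr⟩ := hbN
      rcases hz r hr with rfl | hrz
      · exact hE _ _ hb hbr
      · exact h3 r z b hrz hb hbr
    have hb := hbound z hzN
    rw [hS] at hb ⊢
    simp only [Finset.filter_empty, Finset.card_empty, Nat.cast_zero] at hb ⊢
    have hd := hδ z
    nlinarith
  · obtain ⟨w, hwS, hw⟩ := hmin S hS
    have hwR : ∀ r ∈ R, E r w := by
      simpa [S] using hwS
    have hwN : ∀ b, E w b → b ∉ N := by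
      intro b hb hbN
      simp only [N, Finset.mem_filter, Finset.mem_univ, true_and] at hbN
      obtain ⟨r, hr, hbr⟩ := hbN
      exact h3 r w b (hwR r hr) hb hbr
    have hb := hbound w hwN
    have hd := hδ w
    have hw' : (D : ℤ) * ((S.filter (fun v => E w v)).card : ℤ) ≤ (C : ℤ) * (S.card : ℤ) := by
      exact_mod_cast hw
    nlinarith

theorem lhp_ge (hE : ∀ u v, E u v → ¬ E v u) (h3 : ∀ u v w, E u v → E v w → ¬ E w u)
    (C D : ℕ) (hmin : MinA E C D) (δ : ℤ)
    (hδ : ∀ u : V, δ ≤ (D : ℤ) * ((Finset.univ.filter (fun v => E u v)).card : ℤ))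
    (x : Fin 3 → V) (a : V) (mask : ℕ) (z : Fin 4)
    (hok : okz5 (code3 (fun i j => rel E (x i) (x j))) (prof3 (fun i => rel E (x i) a)) mask z) :
    δ ≤ ∑ b, lhp C D mask (prof3 (fun i => rel E (x i) b)) (rel E a b) := by
  let R : Finset V := (Finset.univ.filter (fun i : Fin 4 => mb4 mask i)).image (y4 x a)
  have hR : ∀ r, r ∈ R ↔ ∃ i : Fin 4, mb4 mask i ∧ y4 x a i = r := by
    intro r
    simp [R]
  have hdom : ∀ r ∈ R, r = y4 x a z ∨ E r (y4 x a z) := by
    intro r hr
    obtain ⟨i, hi, rfl⟩ := (hR r).1 hr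
    by_cases hiz : i = z
    · left; rw [hiz]
    · right
      rcases hok i hi with h | h
      · exact absurd h hiz
      · rw [rc5_eq E hE x a i z hiz, rel_eq_one] at h
        exact h
  have key := hered_delta E hE h3 C D hmin δ hδ R (y4 x a z) hdom
  have hN : ∀ b, (∃ i : Fin 4, mb4 mask i ∧
      eb5 (prof3 (fun i => rel E (x i) b)) (rel E a b) i = 2) ↔ ∃ r ∈ R, E b r := by
    intro b
    constructor
    · rintro ⟨i, hi, h⟩
      rw [eb5_eq, rel_eq_two E hE] at h
      exact ⟨y4 x a i, (hR _).2 ⟨i, hi, rfl⟩, h⟩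
    · rintro ⟨r, hr, hb⟩
      obtain ⟨i, hi, rfl⟩ := (hR r).1 hr
      refine ⟨i, hi, ?_⟩
      rw [eb5_eq, rel_eq_two E hE]
      exact hb
  have hS : ∀ b, (∀ i : Fin 4, mb4 mask i →
      eb5 (prof3 (fun i => rel E (x i) b)) (rel E a b) i = 1) ↔ ∀ r ∈ R, E r b := by
    intro b
    constructor
    · intro h r hr
      obtain ⟨i, hi, rfl⟩ := (hR r).1 hr
      have := h i hi
      rw [eb5_eq, rel_eq_one] at this
      exact this
    · intro h i hi
      rw [eb5_eq, rel_eq_one]
      exact h _ ((hR _).2 ⟨i, hi, rfl⟩)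
  have hsum : ∑ b, lhp C D mask (prof3 (fun i => rel E (x i) b)) (rel E a b) =
      (D : ℤ) * (Fintype.card V : ℤ) -
      (D : ℤ) * (Set.ncard {b | ∃ r ∈ R, E b r} : ℤ) -
      ((D : ℤ) - C) * (Set.ncard {b | ∀ r ∈ R, E r b} : ℤ) := by
    unfold lhp
    rw [Finset.sum_sub_distrib, Finset.sum_sub_distrib]
    rw [sum_if_ncard (fun b => ∃ i : Fin 4, mb4 mask i ∧
        eb5 (prof3 (fun i => rel E (x i) b)) (rel E a b) i = 2),
      sum_if_ncard (fun b => ∀ i : Fin 4, mb4 mask i →
        eb5 (prof3 (fun i => rel E (x i) b)) (rel E a b) i = 1)]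
    simp only [hN, hS]
    simp
    ring
  rw [hsum]
  exact key

omit [DecidableEq V] in
theorem dgp_ge (D : ℕ) (δ : ℤ)
    (hδ : ∀ u : V, δ ≤ (D : ℤ) * ((Finset.univ.filter (fun v => E u v)).card : ℤ))
    (x : Fin 3 → V) (a : V) (i : Fin 4) :
    δ ≤ ∑ b, dgp D i (prof3 (fun i => rel E (x i) b)) (rel E a b) := by
  unfold dgp
  simp only [eb5_eq]
  rw [← Finset.mul_sum, sum_bit1]
  exact hδ _

end

end Pool.Agent.CH5
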